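import Mathlib
import Pool.Agent.R980.DomMain

/-!
# `γ_MB(G,1) > γ(G)` w.h.p. in `G(n, 15/16)` along `n = 2 t² 16^t`
-/

set_option autoImplicit false

namespace Pool.Agent.Results.MP_f1bc00_pr.OneMoreRound

open Finset Filter Topology
open scoped Classical
open Pool.Agent.R980

/-- the domination number `γ(G)` -/
noncomputable def domNum {n : ℕ} (G : SimpleGraph (Fin n)) : ℕ :=
  sInf {m : ℕ | ∃ D : Finset (Fin n), Dominating G D ∧ D.card = m}

/-- `γ_MB(G,b)`: the least number of rounds within which Dominator, moving first in the `b`-biased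
game, can force a win (`⊤` if there is none). -/
noncomputable def gammaMB {n : ℕ} (G : SimpleGraph (Fin n)) (b : ℕ) : ℕ∞ :=
  ⨅ k ∈ {k : ℕ | ForceD b (Dominating G) k ∅ ∅}, (k : ℕ∞)

/-- `γ'_MB(G,b)`: the same quantity when Staller moves first. -/
noncomputable def gammaMB' {n : ℕ} (G : SimpleGraph (Fin n)) (b : ℕ) : ℕ∞ :=
  ⨅ k ∈ {k : ℕ | ForceS b (Dominating G) k ∅ ∅}, (k : ℕ∞)

/-- the chain of equalities in Q1 -/
def Chain {n : ℕ} (G : SimpleGraph (Fin n)) (b : ℕ) : Prop :=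
  gammaMB G b = gammaMB' G b ∧ gammaMB' G b = ((⌈(domNum G : ℝ) / (b : ℝ)⌉₊ : ℕ) : ℕ∞)

theorem of_good (t : ℕ) (G : SimpleGraph (Fin (Nt t))) (h : Good t G) :
    domNum G = t ∧ ((t + 1 : ℕ) : ℕ∞) ≤ gammaMB G 1 := by
  obtain ⟨h1, h2, -, A, hA, hdA⟩ := h
  refine ⟨le_antisymm (Nat.sInf_le ⟨A, hdA, hA⟩) ?_, ?_⟩
  · refine le_csInf ⟨t, A, hdA, hA⟩ ?_
    rintro m ⟨D, hD, rfl⟩
    by_contra hlt
    exact h1 D (not_le.1 hlt) hD
  · unfold gammaMB
    refine le_iInf₂ fun k hk => ?_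
    by_contra hlt
    have hlt' : k < t + 1 := by
      rw [not_le] at hlt
      exact_mod_cast hlt
    exact h2 k (by omega) hk

/-- For `p = 15/16`, `b = 1` and along the sequence `n = Nt t = 2 t² 16^t` the random graph
`G(n,p)` satisfies `γ(G) = t` and `γ_MB(G,1) ≥ t + 1` with probability tending to `1`.  Hence the
probability of the chain `γ_MB(G,1) = γ'_MB(G,1) = ⌈γ(G)/1⌉` tends to `0` along this sequence, and
it does not tend to `1` as `n → ∞`. -/
theorem result :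
    Tendsto (fun t : ℕ => gnp (Nt t) (15 / 16) (fun G =>
      domNum G = t ∧ ((t + 1 : ℕ) : ℕ∞) ≤ gammaMB G 1)) atTop (𝓝 1) ∧
    Tendsto (fun t : ℕ => gnp (Nt t) (15 / 16) (fun G => Chain G 1)) atTop (𝓝 0) ∧
    ¬ Tendsto (fun n : ℕ => gnp n (15 / 16) (fun G => Chain G 1)) atTop (𝓝 1) := by
  have h0 : Tendsto (fun t : ℕ => gnp (Nt t) (15 / 16) (fun G => Chain G 1)) atTop (𝓝 0) := by
    refine prob_zero (fun n G => Chain G 1) fun t G hG heq => ?_
    obtain ⟨h1, h2⟩ := of_good t G hG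
    rw [heq.1, heq.2, h1] at h2
    have h3 : ⌈(t : ℝ) / ((1 : ℕ) : ℝ)⌉₊ = t := by simp
    rw [h3] at h2
    have h4 : t + 1 ≤ t := by exact_mod_cast h2
    omega
  refine ⟨?_, h0, not_tendsto_one (fun n G => Chain G 1) h0⟩
  refine tendsto_of_tendsto_of_tendsto_of_le_of_le good_tendsto tendsto_const_nhds
    (fun t => gnp_mono (by norm_num) (by norm_num) fun G hG => of_good t G hG)
    (fun t => gnp_le_one (by norm_num) (by norm_num) _)

end Pool.Agent.Results.MP_f1bc00_pr.OneMoreRound
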